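import Pool.Graph.R_seed8.TH594.HE.Pt

/-!
# Einstein curvature tensors with prescribed Gauss–Bonnet–Chern integrand
-/

set_option autoImplicit false

namespace Pool.Agent.H349.EP

open Finset Filter Topology
open Pool.Agent.W666.GB Pool.Agent.W669.HD
open Pool.Agent.TH594.HE (Einstein)

variable {m : ℕ} {V : Type} [NormedAddCommGroup V] [InnerProductSpace ℝ V]

/-- The integrands of the Pontryagin numbers, up to constants: for a permutation `π` of the `m`
curvature factors, the product of the traces of the powers of the curvature form along the cycles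
of `π`, evaluated on the orthonormal basis `e`. -/
noncomputable def pont (e : OrthonormalBasis (Fin m × Bool) ℝ V) (R : V → V → V → V → ℝ)
    (π : Equiv.Perm (Fin m)) : ℝ :=
  ∑ σ : Equiv.Perm (Fin m × Bool), ((Equiv.Perm.sign σ : ℤ) : ℝ) *
    ∑ a : Fin m → Fin m × Bool,
      ∏ b : Fin m, R (e (σ (b, false))) (e (σ (b, true))) (e (a b)) (e (a (π b)))

/-- The tensor which is diagonal in the basis `e i ∧ e j` of the bivectors. -/
noncomputable def pureT (e : OrthonormalBasis (Fin m × Bool) ℝ V)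
    (K : Fin m × Bool → Fin m × Bool → ℝ) (x y z w : V) : ℝ :=
  1 / 2 * ∑ i, ∑ j, K i j *
    ((inner ℝ (e i) x * inner ℝ (e j) y - inner ℝ (e j) x * inner ℝ (e i) y) *
      (inner ℝ (e i) z * inner ℝ (e j) w - inner ℝ (e j) z * inner ℝ (e i) w))

theorem pure_curv (e : OrthonormalBasis (Fin m × Bool) ℝ V)
    (K : Fin m × Bool → Fin m × Bool → ℝ) : AlgCurv (pureT e K) where
  add x x' y z w := by
    unfold pureT
    rw [← mul_add, ← Finset.sum_add_distrib]
    congr 1
    refine Finset.sum_congr rfl fun i _ => ?_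
    rw [← Finset.sum_add_distrib]
    refine Finset.sum_congr rfl fun j _ => ?_
    rw [inner_add_right, inner_add_right]
    ring
  smul t x y z w := by
    unfold pureT
    rw [mul_left_comm, Finset.mul_sum (a := t)]
    congr 1
    refine Finset.sum_congr rfl fun i _ => ?_
    rw [Finset.mul_sum]
    refine Finset.sum_congr rfl fun j _ => ?_
    rw [inner_smul_right, inner_smul_right]
    ring
  anti x y z w := by
    unfold pureT
    rw [← mul_neg, ← Finset.sum_neg_distrib]
    congr 1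
    refine Finset.sum_congr rfl fun i _ => ?_
    rw [← Finset.sum_neg_distrib]
    refine Finset.sum_congr rfl fun j _ => ?_
    ring
  pair x y z w := by
    unfold pureT
    congr 1
    refine Finset.sum_congr rfl fun i _ => ?_
    refine Finset.sum_congr rfl fun j _ => ?_
    ring
  bianchi x y z w := by
    unfold pureT
    rw [← mul_add, ← Finset.sum_add_distrib, ← mul_add, ← Finset.sum_add_distrib]
    rw [mul_eq_zero]
    right
    refine Finset.sum_eq_zero fun i _ => ?_
    rw [← Finset.sum_add_distrib, ← Finset.sum_add_distrib]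
    refine Finset.sum_eq_zero fun j _ => ?_
    ring

theorem inner_ee (e : OrthonormalBasis (Fin m × Bool) ℝ V) (i j : Fin m × Bool) :
    inner ℝ (e i) (e j) = if i = j then (1 : ℝ) else 0 :=
  orthonormal_iff_ite.mp e.orthonormal i j

theorem pure_alt (e : OrthonormalBasis (Fin m × Bool) ℝ V)
    {K : Fin m × Bool → Fin m × Bool → ℝ} (hK : ∀ i j, K i j = K j i) (x y z w : V) :
    pureT e K x y z w = ∑ i, ∑ j, K i j * (inner ℝ (e i) x * inner ℝ (e j) y *
      (inner ℝ (e i) z * inner ℝ (e j) w - inner ℝ (e j) z * inner ℝ (e i) w)) := by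
  have h : ∑ i, ∑ j, K i j * (inner ℝ (e j) x * inner ℝ (e i) y *
      (inner ℝ (e i) z * inner ℝ (e j) w - inner ℝ (e j) z * inner ℝ (e i) w)) =
      - ∑ i, ∑ j, K i j * (inner ℝ (e i) x * inner ℝ (e j) y *
      (inner ℝ (e i) z * inner ℝ (e j) w - inner ℝ (e j) z * inner ℝ (e i) w)) := by
    rw [Finset.sum_comm, ← Finset.sum_neg_distrib]
    refine Finset.sum_congr rfl fun i _ => ?_
    rw [← Finset.sum_neg_distrib]
    refine Finset.sum_congr rfl fun j _ => ?_
    rw [hK j i]
    ring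
  have h2 : ∑ i, ∑ j, K i j *
    ((inner ℝ (e i) x * inner ℝ (e j) y - inner ℝ (e j) x * inner ℝ (e i) y) *
      (inner ℝ (e i) z * inner ℝ (e j) w - inner ℝ (e j) z * inner ℝ (e i) w)) =
      ∑ i, ∑ j, K i j * (inner ℝ (e i) x * inner ℝ (e j) y *
      (inner ℝ (e i) z * inner ℝ (e j) w - inner ℝ (e j) z * inner ℝ (e i) w)) -
      ∑ i, ∑ j, K i j * (inner ℝ (e j) x * inner ℝ (e i) y *
      (inner ℝ (e i) z * inner ℝ (e j) w - inner ℝ (e j) z * inner ℝ (e i) w)) := by
    rw [← Finset.sum_sub_distrib]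
    refine Finset.sum_congr rfl fun i _ => ?_
    rw [← Finset.sum_sub_distrib]
    refine Finset.sum_congr rfl fun j _ => ?_
    ring
  unfold pureT
  rw [h2, h]
  ring

theorem pure_basis (e : OrthonormalBasis (Fin m × Bool) ℝ V)
    {K : Fin m × Bool → Fin m × Bool → ℝ} (hK : ∀ i j, K i j = K j i)
    (i j k l : Fin m × Bool) :
    pureT e K (e i) (e j) (e k) (e l) = K i j * unitCurv i j k l := by
  rw [pure_alt e hK]
  simp only [inner_ee]
  rw [Finset.sum_eq_single i, Finset.sum_eq_single j]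
  · unfold unitCurv
    simp only [if_true]
    ring
  · intro b _ hb
    rw [if_neg hb]
    ring
  · intro h
    exact absurd (Finset.mem_univ _) h
  · intro b _ hb
    refine Finset.sum_eq_zero fun c _ => ?_
    rw [if_neg hb]
    ring
  · intro h
    exact absurd (Finset.mem_univ _) h

theorem sn_sq (σ : Equiv.Perm (Fin m × Bool)) :
    ((Equiv.Perm.sign σ : ℤ) : ℝ) * ((Equiv.Perm.sign σ : ℤ) : ℝ) = 1 := by
  rcases Int.units_eq_one_or (Equiv.Perm.sign σ) with h | h <;> rw [h] <;> simp

/-- one half of the double sum -/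
theorem half (σ : Equiv.Perm (Fin m × Bool)) :
    ∑ τ : Equiv.Perm (Fin m × Bool), ((Equiv.Perm.sign σ : ℤ) : ℝ) *
      ((Equiv.Perm.sign τ : ℤ) : ℝ) *
      ∏ b : Fin m, unitCurv (σ (b, false)) (σ (b, true)) (τ (b, false)) (τ (b, true)) =
    ∑ τ : Equiv.Perm (Fin m × Bool), ((Equiv.Perm.sign τ : ℤ) : ℝ) *
      ∏ b : Fin m, unitCurv ((b, false) : Fin m × Bool) (b, true) (τ (b, false))
        (τ (b, true)) := by
  rw [← Equiv.sum_comp (Equiv.mulLeft σ)]
  refine Finset.sum_congr rfl fun τ _ => ?_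
  rw [Equiv.coe_mulLeft, Equiv.Perm.sign_mul]
  have h1 : ∀ b : Fin m, unitCurv (σ (b, false)) (σ (b, true)) ((σ * τ) (b, false))
      ((σ * τ) (b, true)) = unitCurv ((b, false) : Fin m × Bool) (b, true) (τ (b, false))
        (τ (b, true)) := by
    intro b
    unfold unitCurv
    simp only [Equiv.Perm.mul_apply, EmbeddingLike.apply_eq_iff_eq]
  rw [Finset.prod_congr rfl fun b _ => h1 b]
  push_cast
  rw [← mul_assoc ((Equiv.Perm.sign σ : ℤ) : ℝ), sn_sq, one_mul]

theorem half_val (σ : Equiv.Perm (Fin m × Bool)) :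
    ∑ τ : Equiv.Perm (Fin m × Bool), ((Equiv.Perm.sign σ : ℤ) : ℝ) *
      ((Equiv.Perm.sign τ : ℤ) : ℝ) *
      ∏ b : Fin m, unitCurv (σ (b, false)) (σ (b, true)) (τ (b, false)) (τ (b, true)) =
    2 ^ m := by
  have h1 := unit_gm (m := m) 1
  unfold gm at h1
  simp only [one_mul, one_pow, sn] at h1
  rw [Finset.sum_congr rfl fun σ _ => half σ, Finset.sum_const, Finset.card_univ,
    Fintype.card_perm, Fintype.card_prod, Fintype.card_fin, Fintype.card_bool, nsmul_eq_mul,
    mul_comm m 2] at h1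
  rw [half]
  have h2 : ((2 * m).factorial : ℝ) ≠ 0 := by positivity
  have h3 := h1
  rw [mul_comm (2 ^ m : ℝ)] at h3
  exact mul_left_cancel₀ h2 h3

/-- the factor -/
noncomputable def cc (m : ℕ) : ℝ := 2 ^ m / ((8 * Real.pi) ^ m * m.factorial)

theorem cc_pos (m : ℕ) : 0 < cc m := by
  have := Real.pi_pos
  unfold cc
  positivity

theorem gbc_pure (e : OrthonormalBasis (Fin m × Bool) ℝ V)
    {K : Fin m × Bool → Fin m × Bool → ℝ} (hK : ∀ i j, K i j = K j i) :
    gbc e (pureT e K) = cc m * ∑ σ : Equiv.Perm (Fin m × Bool),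
      ∏ b : Fin m, K (σ (b, false)) (σ (b, true)) := by
  unfold gbc cc
  have h1 : ∀ σ : Equiv.Perm (Fin m × Bool), ∑ τ : Equiv.Perm (Fin m × Bool),
      ((Equiv.Perm.sign σ : ℤ) : ℝ) * ((Equiv.Perm.sign τ : ℤ) : ℝ) *
        ∏ b : Fin m, pureT e K (e (σ (b, false))) (e (σ (b, true))) (e (τ (b, false)))
          (e (τ (b, true))) = 2 ^ m * ∏ b : Fin m, K (σ (b, false)) (σ (b, true)) := by
    intro σ
    rw [← half_val σ, Finset.sum_mul]
    refine Finset.sum_congr rfl fun τ _ => ?_
    rw [Finset.prod_congr rfl fun b _ => pure_basis e hK _ _ _ _, Finset.prod_mul_distrib]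
    ring
  rw [Finset.sum_congr rfl fun σ _ => h1 σ, ← Finset.mul_sum]
  ring

/-- the Pontryagin integrands vanish -/
theorem pont_pure (hm : 1 ≤ m) (e : OrthonormalBasis (Fin m × Bool) ℝ V)
    {K : Fin m × Bool → Fin m × Bool → ℝ} (hK : ∀ i j, K i j = K j i)
    (π : Equiv.Perm (Fin m)) : pont e (pureT e K) π = 0 := by
  unfold pont
  refine Finset.sum_eq_zero fun σ _ => ?_
  rw [mul_eq_zero]
  right
  refine Finset.sum_eq_zero fun a _ => ?_
  by_contra hne
  have h1 : ∀ b : Fin m, unitCurv (σ (b, false)) (σ (b, true)) (a b) (a (π b)) ≠ 0 := by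
    intro b h0
    apply hne
    refine Finset.prod_eq_zero (Finset.mem_univ b) ?_
    rw [pure_basis e hK, h0, mul_zero]
  have h2 : ∀ b : Fin m, (σ (b, false) = a b ∧ σ (b, true) = a (π b)) ∨
      (σ (b, false) = a (π b) ∧ σ (b, true) = a b) := by
    intro b
    have := h1 b
    unfold unitCurv at this
    by_contra hcon
    rw [not_or, not_and_or, not_and_or] at hcon
    apply this
    rcases hcon with ⟨h3 | h3, h4 | h4⟩ <;> simp [h3, h4]
  have b : Fin m := ⟨0, hm⟩
  have hb : π b ≠ b := by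
    intro hb
    apply h1 b
    rw [hb]
    unfold unitCurv
    ring
  have h3 : ∃ s, σ (b, s) = a (π b) := by
    rcases h2 b with h | h
    · exact ⟨_, h.2⟩
    · exact ⟨_, h.1⟩
  have h4 : ∃ s, σ (π b, s) = a (π b) := by
    rcases h2 (π b) with h | h
    · exact ⟨_, h.1⟩
    · exact ⟨_, h.2⟩
  obtain ⟨s, hs⟩ := h3
  obtain ⟨s', hs'⟩ := h4
  have h5 : ((b, s) : Fin m × Bool) = (π b, s') := σ.injective (hs.trans hs'.symm)
  exact hb (Prod.mk.inj h5).1.symm

theorem pure_ein (e : OrthonormalBasis (Fin m × Bool) ℝ V)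
    {K : Fin m × Bool → Fin m × Bool → ℝ} (hK : ∀ i j, K i j = K j i) (h0 : ∀ i, K i i = 0)
    {κ : ℝ} (hs : ∀ j, ∑ i, K i j = (2 * m - 1) * κ) : Einstein e (pureT e K) κ := by
  intro y w
  have h1 : ∀ a, pureT e K (e a) y (e a) w = ∑ j, K a j * (inner ℝ (e j) y * inner ℝ (e j) w) := by
    intro a
    rw [pure_alt e hK]
    simp only [inner_ee]
    rw [Finset.sum_eq_single a]
    · refine Finset.sum_congr rfl fun j _ => ?_
      by_cases hj : j = a
      · rw [hj, h0]
        ring
      · rw [if_pos rfl, if_neg hj]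
        ring
    · intro b _ hb
      refine Finset.sum_eq_zero fun c _ => ?_
      rw [if_neg hb]
      ring
    · intro h
      exact absurd (Finset.mem_univ _) h
  rw [Finset.sum_congr rfl fun a _ => h1 a, Finset.sum_comm, ← e.sum_inner_mul_inner y w,
    Finset.mul_sum]
  refine Finset.sum_congr rfl fun j _ => ?_
  rw [← Finset.sum_mul, hs j, real_inner_comm y (e j)]

end Pool.Agent.H349.EP
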