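import Pool.Agent.H349.EP.A

/-!
# The two families
-/

set_option autoImplicit false

namespace Pool.Agent.H349.EP

open Finset Filter Topology
open Pool.Agent.W666.GB Pool.Agent.W669.HD
open Pool.Agent.TH594.HE (Einstein)

variable {m : ℕ} {V : Type} [NormedAddCommGroup V] [InnerProductSpace ℝ V]

open scoped Classical in
/-- the absolute values of the sectional curvatures -/
noncomputable def ak (S : Finset (Fin m × Bool)) (i j : Fin m × Bool) : ℝ :=
  if i ∈ S then (if j ∈ S then (2 * m - S.card) / (S.card - 1) else 1)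
    else (if j ∈ S then 1 else S.card / (2 * m - S.card - 1))

open scoped Classical in
/-- signs -/
noncomputable def sg (S : Finset (Fin m × Bool)) (i : Fin m × Bool) : ℝ :=
  if i ∈ S then -1 else 1

open scoped Classical in
/-- sectional curvatures of a Ricci flat tensor -/
noncomputable def k0 (S : Finset (Fin m × Bool)) (i j : Fin m × Bool) : ℝ :=
  if i = j then 0 else sg S i * sg S j * ak S i j

open scoped Classical in
/-- sectional curvatures of the family -/
noncomputable def kt (S : Finset (Fin m × Bool)) (κ t : ℝ) (i j : Fin m × Bool) : ℝ :=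
  (if i = j then 0 else κ) + t * k0 S i j

theorem ak_symm (S : Finset (Fin m × Bool)) (i j : Fin m × Bool) : ak S i j = ak S j i := by
  unfold ak
  by_cases hi : i ∈ S <;> by_cases hj : j ∈ S <;> simp [hi, hj]

theorem k0_symm (S : Finset (Fin m × Bool)) (i j : Fin m × Bool) : k0 S i j = k0 S j i := by
  unfold k0
  rw [ak_symm S i j, mul_comm (sg S i)]
  by_cases h : i = j
  · rw [if_pos h, if_pos h.symm]
  · rw [if_neg h, if_neg (Ne.symm h)]

theorem kt_symm (S : Finset (Fin m × Bool)) (κ t : ℝ) (i j : Fin m × Bool) :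
    kt S κ t i j = kt S κ t j i := by
  unfold kt
  rw [k0_symm S i j]
  by_cases h : i = j
  · rw [if_pos h, if_pos h.symm]
  · rw [if_neg h, if_neg (Ne.symm h)]

theorem kt_diag (S : Finset (Fin m × Bool)) (κ t : ℝ) (i : Fin m × Bool) :
    kt S κ t i i = 0 := by
  simp [kt, k0]

theorem row_k0 {S : Finset (Fin m × Bool)} (h2 : 2 ≤ S.card) (h3 : S.card + 2 ≤ 2 * m)
    (j : Fin m × Bool) : ∑ i, k0 S i j = 0 := by
  classical
  have hq : (2 : ℝ) ≤ S.card := by exact_mod_cast h2
  have hp : (S.card : ℝ) + 2 ≤ 2 * m := by exact_mod_cast h3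
  have d1 : (S.card : ℝ) - 1 ≠ 0 := by linarith
  have d2 : (2 * m : ℝ) - S.card - 1 ≠ 0 := by linarith
  have hcard : ((Sᶜ : Finset (Fin m × Bool)).card : ℝ) = 2 * m - S.card := by
    rw [Finset.card_compl, Fintype.card_prod, Fintype.card_fin, Fintype.card_bool,
      Nat.cast_sub (by omega)]
    push_cast
    ring
  rw [← Finset.sum_add_sum_compl S]
  by_cases hj : j ∈ S
  · have e1 : ∀ i ∈ S, k0 S i j = (2 * m - S.card) / (S.card - 1) -
        (if i = j then (2 * m - S.card) / ((S.card : ℝ) - 1) else 0) := by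
      intro i hi
      unfold k0 sg ak
      by_cases hij : i = j
      · simp [hij]
      · simp [hij, hi, hj]
    have e2 : ∀ i ∈ Sᶜ, k0 S i j = -1 := by
      intro i hi
      have hi' : i ∉ S := Finset.mem_compl.1 hi
      have hij : i ≠ j := fun h => hi' (h ▸ hj)
      unfold k0 sg ak
      simp [hij, hi', hj]
    rw [Finset.sum_congr rfl e1, Finset.sum_congr rfl e2, Finset.sum_sub_distrib,
      Finset.sum_ite_eq' S j, if_pos hj, Finset.sum_const, Finset.sum_const, nsmul_eq_mul,
      nsmul_eq_mul, hcard]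
    field_simp
    ring
  · have e1 : ∀ i ∈ S, k0 S i j = -1 := by
      intro i hi
      have hij : i ≠ j := fun h => hj (h ▸ hi)
      unfold k0 sg ak
      simp [hij, hi, hj]
    have e2 : ∀ i ∈ Sᶜ, k0 S i j = S.card / (2 * m - S.card - 1) -
        (if i = j then (S.card : ℝ) / (2 * m - S.card - 1) else 0) := by
      intro i hi
      have hi' : i ∉ S := Finset.mem_compl.1 hi
      unfold k0 sg ak
      by_cases hij : i = j
      · simp [hij]
      · simp [hij, hi', hj]
    rw [Finset.sum_congr rfl e1, Finset.sum_congr rfl e2, Finset.sum_sub_distrib,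
      Finset.sum_ite_eq' Sᶜ j, if_pos (Finset.mem_compl.2 hj), Finset.sum_const,
      Finset.sum_const, nsmul_eq_mul, nsmul_eq_mul, hcard]
    field_simp
    ring

theorem row_kt {S : Finset (Fin m × Bool)} (h2 : 2 ≤ S.card) (h3 : S.card + 2 ≤ 2 * m)
    (κ t : ℝ) (j : Fin m × Bool) : ∑ i, kt S κ t i j = (2 * m - 1) * κ := by
  classical
  have e1 : ∀ i : Fin m × Bool, kt S κ t i j = (κ - if i = j then κ else 0) + t * k0 S i j := by
    intro i
    unfold kt
    by_cases h : i = j
    · simp [h]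
    · simp [h]
  rw [Finset.sum_congr rfl fun i _ => e1 i, Finset.sum_add_distrib, ← Finset.mul_sum,
    row_k0 h2 h3, Finset.sum_sub_distrib, Finset.sum_const, Finset.sum_ite_eq' univ j,
    if_pos (Finset.mem_univ _), Finset.card_univ, Fintype.card_prod, Fintype.card_fin,
    Fintype.card_bool, nsmul_eq_mul]
  push_cast
  ring

/-- the value along the family -/
noncomputable def vv (S : Finset (Fin m × Bool)) (κ t : ℝ) : ℝ :=
  cc m * ∑ σ : Equiv.Perm (Fin m × Bool), ∏ b : Fin m, kt S κ t (σ (b, false)) (σ (b, true))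

theorem vv_eq (e : OrthonormalBasis (Fin m × Bool) ℝ V) (S : Finset (Fin m × Bool)) (κ t : ℝ) :
    gbc e (pureT e (kt S κ t)) = vv S κ t := gbc_pure e (kt_symm S κ t)

theorem vv_cont (S : Finset (Fin m × Bool)) (κ : ℝ) : Continuous (vv S κ) := by
  unfold vv kt
  fun_prop

theorem vv_zero (S S' : Finset (Fin m × Bool)) (κ : ℝ) : vv S κ 0 = vv S' κ 0 := by
  unfold vv kt
  simp only [zero_mul, add_zero]

theorem ne_pair (σ : Equiv.Perm (Fin m × Bool)) (b : Fin m) : σ (b, false) ≠ σ (b, true) := by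
  intro h
  have := σ.injective h
  simp at this

/-- the leading coefficient -/
noncomputable def lead (S : Finset (Fin m × Bool)) : ℝ :=
  cc m * ∑ σ : Equiv.Perm (Fin m × Bool), ∏ b : Fin m, k0 S (σ (b, false)) (σ (b, true))

theorem ak_pos {S : Finset (Fin m × Bool)} (h2 : 2 ≤ S.card) (h3 : S.card + 2 ≤ 2 * m)
    (i j : Fin m × Bool) : 0 < ak S i j := by
  have hq : (2 : ℝ) ≤ S.card := by exact_mod_cast h2
  have hp : (S.card : ℝ) + 2 ≤ 2 * m := by exact_mod_cast h3
  unfold ak
  split_ifs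
  · exact div_pos (by linarith) (by linarith)
  · exact one_pos
  · exact one_pos
  · exact div_pos (by linarith) (by linarith)

theorem prod_sg (S : Finset (Fin m × Bool)) (σ : Equiv.Perm (Fin m × Bool)) :
    ∏ b : Fin m, (sg S (σ (b, false)) * sg S (σ (b, true))) = (-1) ^ S.card := by
  classical
  have h1 : ∏ b : Fin m, (sg S (σ (b, false)) * sg S (σ (b, true))) =
      ∏ x : Fin m × Bool, sg S (σ x) := by
    rw [Fintype.prod_prod_type]
    refine Finset.prod_congr rfl fun b _ => ?_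
    rw [Fintype.prod_bool, mul_comm]
  rw [h1, Equiv.prod_comp σ (sg S)]
  unfold sg
  rw [Finset.prod_ite_mem, Finset.univ_inter, Finset.prod_const]

theorem lead_eq {S : Finset (Fin m × Bool)} :
    lead S = (-1) ^ S.card * (cc m * ∑ σ : Equiv.Perm (Fin m × Bool),
      ∏ b : Fin m, ak S (σ (b, false)) (σ (b, true))) := by
  have h1 : ∀ σ : Equiv.Perm (Fin m × Bool), ∏ b : Fin m, k0 S (σ (b, false)) (σ (b, true)) =
      (-1) ^ S.card * ∏ b : Fin m, ak S (σ (b, false)) (σ (b, true)) := by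
    intro σ
    rw [← prod_sg S σ, ← Finset.prod_mul_distrib]
    refine Finset.prod_congr rfl fun b _ => ?_
    unfold k0
    rw [if_neg (ne_pair σ b)]
  unfold lead
  rw [Finset.sum_congr rfl fun σ _ => h1 σ, ← Finset.mul_sum]
  ring

theorem lead_abs {S : Finset (Fin m × Bool)} (h2 : 2 ≤ S.card) (h3 : S.card + 2 ≤ 2 * m) :
    0 < cc m * ∑ σ : Equiv.Perm (Fin m × Bool),
      ∏ b : Fin m, ak S (σ (b, false)) (σ (b, true)) :=
  mul_pos (cc_pos m) (Finset.sum_pos (fun _ _ => Finset.prod_pos fun _ _ => ak_pos h2 h3 _ _)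
    Finset.univ_nonempty)

theorem vv_scale (S : Finset (Fin m × Bool)) (κ : ℝ) {t : ℝ} (ht : 0 < t) :
    vv S κ t = t ^ m * (cc m * ∑ σ : Equiv.Perm (Fin m × Bool), ∏ b : Fin m,
      (t⁻¹ * κ + k0 S (σ (b, false)) (σ (b, true)))) := by
  have h1 : ∀ σ : Equiv.Perm (Fin m × Bool), ∏ b : Fin m, kt S κ t (σ (b, false)) (σ (b, true)) =
      t ^ m * ∏ b : Fin m, (t⁻¹ * κ + k0 S (σ (b, false)) (σ (b, true))) := by
    intro σ
    have h2 : t ^ m = ∏ _b : Fin m, t := by
      rw [Finset.prod_const, Finset.card_univ, Fintype.card_fin]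
    rw [h2, ← Finset.prod_mul_distrib]
    refine Finset.prod_congr rfl fun b _ => ?_
    unfold kt
    rw [if_neg (ne_pair σ b), mul_add, ← mul_assoc, mul_inv_cancel₀ ht.ne', one_mul]
  unfold vv
  rw [Finset.sum_congr rfl fun σ _ => h1 σ, ← Finset.mul_sum]
  ring

theorem lim_inner (S : Finset (Fin m × Bool)) (κ : ℝ) :
    Tendsto (fun t : ℝ => cc m * ∑ σ : Equiv.Perm (Fin m × Bool), ∏ b : Fin m,
      (t⁻¹ * κ + k0 S (σ (b, false)) (σ (b, true)))) atTop (𝓝 (lead S)) := by
  have h1 : Continuous fun u : ℝ => cc m * ∑ σ : Equiv.Perm (Fin m × Bool), ∏ b : Fin m,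
      (u * κ + k0 S (σ (b, false)) (σ (b, true))) := by fun_prop
  have h2 := (h1.tendsto 0).comp tendsto_inv_atTop_zero
  simp only [zero_mul, zero_add] at h2
  exact h2

theorem exists_card (m q : ℕ) (h : q ≤ 2 * m) : ∃ S : Finset (Fin m × Bool), S.card = q := by
  obtain ⟨S, -, hS⟩ := Finset.exists_subset_card_eq (s := (univ : Finset (Fin m × Bool)))
    (n := q) (by rw [Finset.card_univ, Fintype.card_prod, Fintype.card_fin, Fintype.card_bool]
                 omega)
  exact ⟨S, hS⟩

theorem up {S : Finset (Fin m × Bool)} (hm : 3 ≤ m) (hS : S.card = 2) (κ : ℝ) :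
    Tendsto (vv S κ) atTop atTop := by
  have h1 : 0 < lead S := by
    rw [lead_eq, hS]
    have := lead_abs (S := S) (by omega) (by omega)
    linarith
  have h2 := (tendsto_pow_atTop (α := ℝ) (n := m) (by omega)).atTop_mul_pos h1 (lim_inner S κ)
  refine h2.congr' ?_
  filter_upwards [eventually_gt_atTop 0] with t ht
  exact (vv_scale S κ ht).symm

theorem down {S : Finset (Fin m × Bool)} (hm : 3 ≤ m) (hS : S.card = 3) (κ : ℝ) :
    Tendsto (vv S κ) atTop atBot := by
  have h1 : lead S < 0 := by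
    rw [lead_eq, hS]
    have := lead_abs (S := S) (by omega) (by omega)
    linarith
  have h2 := (tendsto_pow_atTop (α := ℝ) (n := m) (by omega)).atTop_mul_neg h1 (lim_inner S κ)
  refine h2.congr' ?_
  filter_upwards [eventually_gt_atTop 0] with t ht
  exact (vv_scale S κ ht).symm

theorem main (hm : 3 ≤ m) (e : OrthonormalBasis (Fin m × Bool) ℝ V) (κ x : ℝ) :
    ∃ R : V → V → V → V → ℝ, AlgCurv R ∧ Einstein e R κ ∧ gbc e R = x ∧
      ∀ π : Equiv.Perm (Fin m), pont e R π = 0 := by
  obtain ⟨S2, h2⟩ := exists_card m 2 (by omega)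
  obtain ⟨S3, h3⟩ := exists_card m 3 (by omega)
  have key : ∀ S : Finset (Fin m × Bool), 2 ≤ S.card → S.card + 2 ≤ 2 * m →
      (∃ t, vv S κ t = x) → ∃ R : V → V → V → V → ℝ, AlgCurv R ∧ Einstein e R κ ∧
        gbc e R = x ∧ ∀ π : Equiv.Perm (Fin m), pont e R π = 0 := by
    rintro S hS hS' ⟨t, ht⟩
    exact ⟨pureT e (kt S κ t), pure_curv e _,
      pure_ein e (kt_symm S κ t) (kt_diag S κ t) (row_kt hS hS' κ t),
      (vv_eq e S κ t).trans ht, pont_pure (by omega) e (kt_symm S κ t)⟩
  rcases le_or_gt (vv S2 κ 0) x with hx | hx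
  · refine key S2 (by omega) (by omega) ?_
    obtain ⟨b, hb⟩ := (up hm h2 κ).eventually (eventually_ge_atTop x) |>.exists
    exact mem_range_of_exists_le_of_exists_ge (vv_cont S2 κ) ⟨0, hx⟩ ⟨b, hb⟩
  · refine key S3 (by omega) (by omega) ?_
    obtain ⟨b, hb⟩ := (down hm h3 κ).eventually (eventually_le_atBot x) |>.exists
    rw [vv_zero S2 S3 κ] at hx
    exact mem_range_of_exists_le_of_exists_ge (vv_cont S3 κ) ⟨b, hb⟩ ⟨0, hx.le⟩

end Pool.Agent.H349.EP
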