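import Pool.Agent.H349.EP.B

/-!
# Linear combinations with the Pontryagin integrands
-/

set_option autoImplicit false

namespace Pool.Agent.H349.EP

open Finset Filter Topology
open Pool.Agent.W666.GB Pool.Agent.W669.HD
open Pool.Agent.TH594.HE (Einstein)

variable {m : ℕ} {V : Type} [NormedAddCommGroup V] [InnerProductSpace ℝ V]

/-- reflection at a basis vector -/
noncomputable def refl (e : OrthonormalBasis (Fin m × Bool) ℝ V) (o : Fin m × Bool) (x : V) : V :=
  x - (2 * inner ℝ (e o) x) • e o

/-- the reflected tensor -/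
noncomputable def refT (e : OrthonormalBasis (Fin m × Bool) ℝ V) (o : Fin m × Bool)
    (R : V → V → V → V → ℝ) (x y z w : V) : ℝ :=
  R (refl e o x) (refl e o y) (refl e o z) (refl e o w)

theorem refl_add (e : OrthonormalBasis (Fin m × Bool) ℝ V) (o : Fin m × Bool) (x y : V) :
    refl e o (x + y) = refl e o x + refl e o y := by
  unfold refl
  rw [inner_add_right, mul_add, add_smul]
  abel

theorem refl_smul (e : OrthonormalBasis (Fin m × Bool) ℝ V) (o : Fin m × Bool) (t : ℝ) (x : V) :
    refl e o (t • x) = t • refl e o x := by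
  unfold refl
  rw [inner_smul_right, smul_sub, smul_smul]
  congr 2
  ring

theorem refl_e (e : OrthonormalBasis (Fin m × Bool) ℝ V) (o i : Fin m × Bool) :
    refl e o (e i) = sg {o} i • e i := by
  unfold refl sg
  rw [inner_ee]
  by_cases h : o = i
  · subst h
    rw [if_pos rfl, if_pos (Finset.mem_singleton_self _)]
    rw [mul_one, two_smul, neg_smul, one_smul]
    abel
  · rw [if_neg h, if_neg (fun hc => h (Finset.mem_singleton.1 hc).symm), mul_zero, zero_smul,
      one_smul, sub_zero]

theorem refl_inner (e : OrthonormalBasis (Fin m × Bool) ℝ V) (o : Fin m × Bool) (x y : V) :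
    inner ℝ (refl e o x) (refl e o y) = (inner ℝ x y : ℝ) := by
  unfold refl
  rw [inner_sub_left, inner_sub_right, inner_sub_right, inner_smul_left, inner_smul_right,
    inner_smul_left, inner_smul_right, inner_ee, if_pos rfl, real_inner_comm (e o) x]
  simp only [conj_trivial]
  ring

theorem refT_curv {R : V → V → V → V → ℝ} (hR : AlgCurv R)
    (e : OrthonormalBasis (Fin m × Bool) ℝ V) (o : Fin m × Bool) : AlgCurv (refT e o R) where
  add x x' y z w := by simp only [refT, refl_add, hR.add]
  smul t x y z w := by simp only [refT, refl_smul, hR.smul]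
  anti x y z w := by simp only [refT]; rw [hR.anti]
  pair x y z w := by simp only [refT]; rw [hR.pair]
  bianchi x y z w := by simp only [refT]; exact hR.bianchi _ _ _ _

theorem smul3 {R : V → V → V → V → ℝ} (hR : AlgCurv R) (t : ℝ) (x y z w : V) :
    R x y (t • z) w = t * R x y z w := by
  rw [← hR.pair x y (t • z) w, hR.smul, hR.pair x y z w]

theorem smul2 {R : V → V → V → V → ℝ} (hR : AlgCurv R) (t : ℝ) (x y z w : V) :
    R x (t • y) z w = t * R x y z w := by
  rw [hR.anti (t • y) x z w, hR.anti y x z w, hR.smul]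
  ring

theorem smul4 {R : V → V → V → V → ℝ} (hR : AlgCurv R) (t : ℝ) (x y z w : V) :
    R x y z (t • w) = t * R x y z w := by
  rw [← hR.pair x y z (t • w), smul2 hR, hR.pair x y z w]

theorem sg_sq (S : Finset (Fin m × Bool)) (i : Fin m × Bool) : sg S i * sg S i = 1 := by
  unfold sg
  split_ifs <;> norm_num

theorem refT_ein {R : V → V → V → V → ℝ} (hR : AlgCurv R)
    {e : OrthonormalBasis (Fin m × Bool) ℝ V} (o : Fin m × Bool) {κ : ℝ} (hE : Einstein e R κ) :
    Einstein e (refT e o R) κ := by
  intro y w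
  have h1 : ∀ i, refT e o R (e i) y (e i) w = R (e i) (refl e o y) (e i) (refl e o w) := by
    intro i
    simp only [refT, refl_e]
    rw [hR.smul, smul3 hR, ← mul_assoc, sg_sq, one_mul]
  rw [Finset.sum_congr rfl fun i _ => h1 i, hE, refl_inner]

theorem refT_pont {R : V → V → V → V → ℝ} (hR : AlgCurv R)
    (e : OrthonormalBasis (Fin m × Bool) ℝ V) (o : Fin m × Bool) (π : Equiv.Perm (Fin m)) :
    pont e (refT e o R) π = - pont e R π := by
  unfold pont
  rw [← Finset.sum_neg_distrib]
  refine Finset.sum_congr rfl fun σ _ => ?_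
  rw [← mul_neg, ← Finset.sum_neg_distrib]
  congr 1
  refine Finset.sum_congr rfl fun a _ => ?_
  have h1 : ∀ b : Fin m, refT e o R (e (σ (b, false))) (e (σ (b, true))) (e (a b)) (e (a (π b))) =
      (sg {o} (σ (b, false)) * sg {o} (σ (b, true))) * (sg {o} (a b) * sg {o} (a (π b))) *
        R (e (σ (b, false))) (e (σ (b, true))) (e (a b)) (e (a (π b))) := by
    intro b
    simp only [refT, refl_e]
    rw [hR.smul, smul2 hR, smul3 hR, smul4 hR]
    ring
  rw [Finset.prod_congr rfl fun b _ => h1 b, Finset.prod_mul_distrib, Finset.prod_mul_distrib,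
    prod_sg, Finset.prod_mul_distrib, Equiv.prod_comp π fun b => sg {o} (a b),
    ← Finset.prod_mul_distrib, Finset.prod_congr rfl fun b _ => sg_sq {o} (a b),
    Finset.prod_const_one, Finset.card_singleton]
  ring

/-- the line through the tensor of constant curvature -/
noncomputable def lineT (R : V → V → V → V → ℝ) (κ s : ℝ) (x y z w : V) : ℝ :=
  (1 - s) * κ * unitT x y z w + s * R x y z w

theorem lineT_curv {R : V → V → V → V → ℝ} (hR : AlgCurv R) (κ s : ℝ) :
    AlgCurv (lineT R κ s) where
  add x x' y z w := by simp only [lineT, unitT, hR.add, inner_add_left]; ring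
  smul t x y z w := by simp only [lineT, unitT, hR.smul, inner_smul_left, conj_trivial]; ring
  anti x y z w := by simp only [lineT, unitT, hR.anti x y z w]; ring
  pair x y z w := by
    simp only [lineT, unitT, hR.pair x y z w, real_inner_comm z x, real_inner_comm w y,
      real_inner_comm z y, real_inner_comm w x]; ring
  bianchi x y z w := by
    simp only [lineT, unitT]
    rw [real_inner_comm y x, real_inner_comm z x, real_inner_comm z y]
    linear_combination s * hR.bianchi x y z w

theorem lineT_ein {R : V → V → V → V → ℝ} {e : OrthonormalBasis (Fin m × Bool) ℝ V} {κ : ℝ}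
    (hE : Einstein e R κ) (s : ℝ) : Einstein e (lineT R κ s) κ := by
  intro y w
  have h1 : ∑ i, unitT (e i) y (e i) w = (2 * m - 1) * inner ℝ y w := by
    unfold unitT
    rw [Finset.sum_sub_distrib, ← Finset.sum_mul]
    simp only [inner_ee, if_true]
    rw [Finset.sum_const, Finset.card_univ, Fintype.card_prod, Fintype.card_fin,
      Fintype.card_bool, nsmul_eq_mul]
    have h2 : ∑ i, inner ℝ (e i) w * inner ℝ y (e i) = (inner ℝ y w : ℝ) := by
      rw [← e.sum_inner_mul_inner y w]
      exact Finset.sum_congr rfl fun i _ => mul_comm _ _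
    rw [h2]
    push_cast
    ring
  unfold lineT
  rw [Finset.sum_add_distrib, ← Finset.mul_sum, ← Finset.mul_sum, h1, hE]
  ring

open Polynomial in
/-- the combination along the line is a polynomial -/
theorem line_poly (e : OrthonormalBasis (Fin m × Bool) ℝ V) (R : V → V → V → V → ℝ) (κ : ℝ)
    (β : Equiv.Perm (Fin m) → ℝ) : ∃ p : ℝ[X], ∀ s : ℝ,
      p.eval s = ∑ π, β π * pont e (lineT R κ s) π := by
  refine ⟨∑ π, C (β π) * ∑ σ : Equiv.Perm (Fin m × Bool), C ((Equiv.Perm.sign σ : ℤ) : ℝ) *
    ∑ a : Fin m → Fin m × Bool, ∏ b : Fin m,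
      ((1 - X) * C (κ * unitT (e (σ (b, false))) (e (σ (b, true))) (e (a b)) (e (a (π b)))) +
        X * C (R (e (σ (b, false))) (e (σ (b, true))) (e (a b)) (e (a (π b))))), fun s => ?_⟩
  simp only [eval_finsetSum, eval_mul, eval_C, eval_prod, eval_add, eval_sub, eval_one, eval_X,
    pont, lineT, mul_assoc]

theorem unit_pont (hm : 1 ≤ m) (e : OrthonormalBasis (Fin m × Bool) ℝ V)
    (R : V → V → V → V → ℝ) (κ : ℝ) (π : Equiv.Perm (Fin m)) :
    pont e (lineT R κ 0) π = 0 := by
  classical
  have h := pont_pure hm e (K := fun i j => if i = j then 0 else κ) (fun i j => by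
    by_cases h : i = j
    · rw [if_pos h, if_pos h.symm]
    · rw [if_neg h, if_neg (Ne.symm h)]) π
  refine Eq.trans ?_ h
  unfold pont
  refine Finset.sum_congr rfl fun σ _ => ?_
  congr 1
  refine Finset.sum_congr rfl fun a _ => Finset.prod_congr rfl fun b _ => ?_
  rw [pure_basis e (fun i j => by
    by_cases h : i = j
    · rw [if_pos h, if_pos h.symm]
    · rw [if_neg h, if_neg (Ne.symm h)]), if_neg (ne_pair σ b)]
  unfold lineT
  rw [cp_unit]
  ring

theorem line_one (R : V → V → V → V → ℝ) (κ : ℝ) : lineT R κ 1 = R := by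
  funext x y z w
  unfold lineT
  ring

/-- the combinations of the Pontryagin integrands -/
theorem pont_all (hm : 1 ≤ m) (e : OrthonormalBasis (Fin m × Bool) ℝ V) (κ : ℝ)
    (β : Equiv.Perm (Fin m) → ℝ) {R : V → V → V → V → ℝ} (hR : AlgCurv R)
    (hE : Einstein e R κ) (hne : ∑ π, β π * pont e R π ≠ 0) (x : ℝ) :
    ∃ R' : V → V → V → V → ℝ, AlgCurv R' ∧ Einstein e R' κ ∧ ∑ π, β π * pont e R' π = x := by
  obtain ⟨p, hp⟩ := line_poly e R κ β
  have h0 : p.eval 0 = 0 := by
    rw [hp]
    refine Finset.sum_eq_zero fun π _ => ?_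
    rw [unit_pont hm, mul_zero]
  have h1 : p.eval 1 ≠ 0 := by
    rw [hp, line_one]
    exact hne
  have hdeg : 0 < p.degree := by
    by_contra hcon
    rw [not_lt] at hcon
    rw [Polynomial.eq_C_of_degree_le_zero hcon] at h0 h1
    rw [Polynomial.eval_C] at h0 h1
    exact h1 h0
  have hlim := p.abs_tendsto_atTop hdeg
  obtain ⟨s1, hs1⟩ := (hlim.eventually (eventually_ge_atTop |x|)).exists
  have hc : Continuous fun s : ℝ => |p.eval s| := p.continuous.abs
  obtain ⟨s, hs⟩ := mem_range_of_exists_le_of_exists_ge hc (c := |x|)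
    ⟨0, by simp only [h0, abs_zero]; exact abs_nonneg x⟩ ⟨s1, hs1⟩
  have hs' : |p.eval s| = |x| := hs
  have hA := lineT_curv hR κ s
  have hB := lineT_ein hE s
  rcases abs_eq_abs.1 hs' with h | h
  · exact ⟨_, hA, hB, by rw [← hp, h]⟩
  · refine ⟨refT e (⟨0, hm⟩, false) (lineT R κ s), refT_curv hA _ _, refT_ein hA _ hB, ?_⟩
    rw [hp] at h
    simp only [refT_pont hA, mul_neg, Finset.sum_neg_distrib]
    linarith

/-- the dichotomy -/
theorem dich (hm : 3 ≤ m) (e : OrthonormalBasis (Fin m × Bool) ℝ V) (κ α : ℝ)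
    (β : Equiv.Perm (Fin m) → ℝ) :
    (∀ x : ℝ, ∃ R : V → V → V → V → ℝ, AlgCurv R ∧ Einstein e R κ ∧
      α * gbc e R + ∑ π, β π * pont e R π = x ∧ (α ≠ 0 → ∀ π, pont e R π = 0)) ∨
    (α = 0 ∧ ∀ R : V → V → V → V → ℝ, AlgCurv R → Einstein e R κ →
      ∑ π, β π * pont e R π = 0) := by
  by_cases hα : α = 0
  · subst hα
    by_cases h : ∀ R : V → V → V → V → ℝ, AlgCurv R → Einstein e R κ →
      ∑ π, β π * pont e R π = 0
    · exact Or.inr ⟨rfl, h⟩
    · left
      push Not at h
      obtain ⟨R, hR, hE, hne⟩ := h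
      intro x
      obtain ⟨R', h1, h2, h3⟩ := pont_all (by omega) e κ β hR hE hne x
      exact ⟨R', h1, h2, by rw [zero_mul, zero_add, h3], fun h => absurd rfl h⟩
  · left
    intro x
    obtain ⟨R, h1, h2, h3, h4⟩ := main hm e κ (x / α)
    refine ⟨R, h1, h2, ?_, fun _ => h4⟩
    simp only [h4, mul_zero, Finset.sum_const_zero, add_zero]
    rw [h3]
    field_simp

end Pool.Agent.H349.EP
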